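import Mathlib

/-!
# The greedy set avoiding `5w + 2x = 5y + 2z`

The greedy set is `{5x + y : x ∈ A, 0 ≤ y ≤ 4}`, where `A` is the set of subset sums of the sequence
`a_i = ⌈(5 + 7 ∑_{j<i} a_j) / 2⌉` (that is `3, 13, 59, 265, …`).  With the rounding down written in
the problem file (`2, 9, 41, …`) the description fails already at `10`.
-/

set_option autoImplicit false

namespace Pool.Agent.Results.MP_cb51c9_co.GreedyBlocks

/-- `S` is free of `5w + 2x = 5y + 2z`: it has only trivial solutions in `S`. -/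
def Free (S : Set ℕ) : Prop :=
  ∀ w ∈ S, ∀ x ∈ S, ∀ y ∈ S, ∀ z ∈ S, 5 * w + 2 * x = 5 * y + 2 * z → w = y ∧ x = z

/-- `g` is the greedy sequence: `g 0 = 0` and `g (i + 1)` is the least `n > g i` such that
`{g 0, …, g i, n}` is free of `5w + 2x = 5y + 2z`. -/
def IsGreedy (g : ℕ → ℕ) : Prop :=
  g 0 = 0 ∧ ∀ i, IsLeast {n | g i < n ∧ Free (insert n (g '' Set.Iic i))} (g (i + 1))

/-- The sequence of the problem file: `a_0 = 0`, `a_i = ⌊(5 + 7 ∑_{j<i} a_j) / 2⌋`. -/
def aFloor (i : ℕ) : ℕ :=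
  if i = 0 then 0 else ⌊((5 + 7 * ∑ j : Fin i, aFloor j : ℕ) : ℚ) / 2⌋₊
termination_by i
decreasing_by exact j.2

/-- The sequence with rounding up: `a_0 = 0`, `a_i = ⌈(5 + 7 ∑_{j<i} a_j) / 2⌉`. -/
def aCeil (i : ℕ) : ℕ :=
  if i = 0 then 0 else ⌈((5 + 7 * ∑ j : Fin i, aCeil j : ℕ) : ℚ) / 2⌉₊
termination_by i
decreasing_by exact j.2

/-- All finite sums of distinct terms of `a`. -/
def SubsetSums (a : ℕ → ℕ) : Set ℕ := {x | ∃ F : Finset ℕ, x = ∑ i ∈ F, a i}

/-- `{5x + y : x ∈ A, 0 ≤ y ≤ 4}`. -/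
def Blocks (A : Set ℕ) : Set ℕ := {n | ∃ x ∈ A, ∃ y ≤ 4, n = 5 * x + y}

/-! ### The sequence -/

/-- Partial sums. -/
def s (i : ℕ) : ℕ := ∑ j ∈ Finset.range (i + 1), aCeil j

theorem aCeil_zero : aCeil 0 = 0 := by rw [aCeil]; simp

theorem s_zero : s 0 = 0 := by simp [s, aCeil_zero]

theorem s_succ (i : ℕ) : s (i + 1) = s i + aCeil (i + 1) := by
  rw [s, Finset.sum_range_succ, ← s]

theorem aCeil_succ (i : ℕ) : aCeil (i + 1) = (7 * s i + 6) / 2 := by
  rw [aCeil, if_neg (Nat.succ_ne_zero i)]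
  have h : ∑ j : Fin (i + 1), aCeil j = s i := by
    rw [s, Finset.sum_range]
  rw [h]
  rw [Nat.ceil_eq_iff (by omega)]
  constructor
  · have : (7 * s i + 6) / 2 - 1 < (5 + 7 * s i : ℕ) / 2 + 1 := by omega
    have h2 : 2 * ((7 * s i + 6) / 2 - 1) < 5 + 7 * s i := by omega
    have h3 : (2 : ℚ) * (((7 * s i + 6) / 2 - 1 : ℕ) : ℚ) < ((5 + 7 * s i : ℕ) : ℚ) := by
      exact_mod_cast h2
    linarith
  · have h2 : 5 + 7 * s i ≤ 2 * ((7 * s i + 6) / 2) := by omega
    have h3 : ((5 + 7 * s i : ℕ) : ℚ) ≤ (2 : ℚ) * (((7 * s i + 6) / 2 : ℕ) : ℚ) := by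
      exact_mod_cast h2
    linarith

theorem two_a_lower (i : ℕ) : 7 * s i + 5 ≤ 2 * aCeil (i + 1) := by
  rw [aCeil_succ]; omega

theorem two_a_upper (i : ℕ) : 2 * aCeil (i + 1) ≤ 7 * s i + 6 := by
  rw [aCeil_succ]; omega

theorem s_mono {i j : ℕ} (h : i ≤ j) : s i ≤ s j := by
  induction h with
  | refl => exact le_rfl
  | step _ ih => rw [s_succ]; omega

theorem a_mono {i j : ℕ} (h : i ≤ j) : aCeil (i + 1) ≤ aCeil (j + 1) := by
  have := s_mono h
  rw [aCeil_succ, aCeil_succ]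
  omega

theorem i_le_s (i : ℕ) : i ≤ s i := by
  induction i with
  | zero => exact Nat.zero_le _
  | succ i ih =>
    have := two_a_lower i
    rw [s_succ]
    omega

/-! ### Levels -/

/-- Subset sums of `a_1, …, a_i`. -/
def lev : ℕ → Set ℕ
  | 0 => {0}
  | i + 1 => {x | x ∈ lev i ∨ ∃ y ∈ lev i, x = y + aCeil (i + 1)}

theorem lev_sub {i : ℕ} {x : ℕ} (h : x ∈ lev i) : x ∈ lev (i + 1) := Or.inl h

theorem lev_add {i : ℕ} {x : ℕ} (h : x ∈ lev i) : x + aCeil (i + 1) ∈ lev (i + 1) :=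
  Or.inr ⟨x, h, rfl⟩

theorem zero_mem_lev (i : ℕ) : 0 ∈ lev i := by
  induction i with
  | zero => exact rfl
  | succ i ih => exact lev_sub ih

theorem lev_le {i x : ℕ} (h : x ∈ lev i) : x ≤ s i := by
  induction i generalizing x with
  | zero => rw [show x = 0 from h]; exact Nat.zero_le _
  | succ i ih =>
    rw [s_succ]
    rcases h with h | ⟨y, hy, rfl⟩
    · have := ih h; omega
    · have := ih hy; omega

theorem lev_mono {i j : ℕ} (h : i ≤ j) : lev i ⊆ lev j := by
  induction h with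
  | refl => exact subset_rfl
  | step _ ih => exact fun x hx => lev_sub (ih hx)

theorem mem_lev_of_lt {i j x : ℕ} (h : x ∈ lev j) (hx : x < aCeil (i + 1)) : x ∈ lev i := by
  induction j with
  | zero => exact lev_mono (Nat.zero_le i) h
  | succ j ih =>
    rcases h with h | ⟨y, hy, rfl⟩
    · exact ih h
    · rcases Nat.lt_or_ge j i with hji | hij
      · exact lev_mono hji (lev_add hy)
      · have := a_mono hij
        omega

theorem exists_lev {x : ℕ} : x ∈ SubsetSums aCeil ↔ ∃ i, x ∈ lev i := by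
  constructor
  · rintro ⟨F, rfl⟩
    have key : ∀ i (F : Finset ℕ), F ⊆ Finset.range (i + 1) → ∑ j ∈ F, aCeil j ∈ lev i := by
      intro i
      induction i with
      | zero =>
        intro F hF
        have : ∑ j ∈ F, aCeil j = 0 := by
          apply Finset.sum_eq_zero
          intro j hj
          have := Finset.mem_range.mp (hF hj)
          have hj0 : j = 0 := by omega
          rw [hj0, aCeil_zero]
        rw [this]
        exact rfl
      | succ i ih =>
        intro F hF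
        by_cases hi : i + 1 ∈ F
        · rw [← Finset.sum_erase_add F _ hi]
          apply lev_add
          apply ih
          intro j hj
          have h1 := Finset.ne_of_mem_erase hj
          have h2 := Finset.mem_range.mp (hF (Finset.mem_of_mem_erase hj))
          exact Finset.mem_range.mpr (by omega)
        · apply lev_sub
          apply ih
          intro j hj
          have h1 : j ≠ i + 1 := fun h => hi (h ▸ hj)
          have h2 := Finset.mem_range.mp (hF hj)
          exact Finset.mem_range.mpr (by omega)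
    obtain ⟨n, hn⟩ := F.exists_nat_subset_range
    exact ⟨n, key n F (hn.trans (Finset.range_mono (Nat.le_succ n)))⟩
  · rintro ⟨i, hi⟩
    have key : ∀ i x, x ∈ lev i → ∃ F : Finset ℕ, F ⊆ Finset.range (i + 1) ∧
        x = ∑ j ∈ F, aCeil j := by
      intro i
      induction i with
      | zero =>
        intro x hx
        exact ⟨∅, Finset.empty_subset _, by rw [show x = 0 from hx]; simp⟩
      | succ i ih =>
        rintro x (hx | ⟨y, hy, rfl⟩)
        · obtain ⟨F, hF, rfl⟩ := ih x hx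
          exact ⟨F, hF.trans (Finset.range_mono (Nat.le_succ _)), rfl⟩
        · obtain ⟨F, hF, rfl⟩ := ih y hy
          have hni : i + 1 ∉ F := fun h => by
            have := Finset.mem_range.mp (hF h); omega
          refine ⟨insert (i + 1) F, ?_, ?_⟩
          · intro j hj
            rcases Finset.mem_insert.mp hj with rfl | hj
            · exact Finset.mem_range.mpr (by omega)
            · have := Finset.mem_range.mp (hF hj)
              exact Finset.mem_range.mpr (by omega)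
          · rw [Finset.sum_insert hni, add_comm]
    obtain ⟨F, -, rfl⟩ := key i x hi
    exact ⟨F, rfl⟩

/-! ### The set is free -/

theorem diff_aux (i : ℕ) : ∀ x ∈ lev i, ∀ y ∈ lev i, ∀ x' ∈ lev i, ∀ y' ∈ lev i,
    |2 * ((x : ℤ) - y) - 5 * ((x' : ℤ) - y')| ≤ 4 → x = y ∧ x' = y' := by
  induction i with
  | zero =>
    intro x hx y hy x' hx' y' hy' _
    rw [show x = 0 from hx, show y = 0 from hy, show x' = 0 from hx', show y' = 0 from hy']
    exact ⟨rfl, rfl⟩
  | succ i ih =>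
    have hl := two_a_lower i
    -- write each element as `base + ε a`
    have dec : ∀ x ∈ lev (i + 1), ∃ b ∈ lev i, ∃ e : ℕ, (e = 0 ∨ e = 1) ∧
        x = b + e * aCeil (i + 1) := by
      rintro x (hx | ⟨b, hb, rfl⟩)
      · exact ⟨x, hx, 0, Or.inl rfl, by simp⟩
      · exact ⟨b, hb, 1, Or.inr rfl, by simp⟩
    intro x hx y hy x' hx' y' hy' h
    obtain ⟨b1, hb1, e1, he1, rfl⟩ := dec x hx
    obtain ⟨b2, hb2, e2, he2, rfl⟩ := dec y hy
    obtain ⟨b3, hb3, e3, he3, rfl⟩ := dec x' hx'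
    obtain ⟨b4, hb4, e4, he4, rfl⟩ := dec y' hy'
    have l1 := lev_le hb1
    have l2 := lev_le hb2
    have l3 := lev_le hb3
    have l4 := lev_le hb4
    have IH := ih b1 hb1 b2 hb2 b3 hb3 b4 hb4
    generalize aCeil (i + 1) = a at *
    generalize s i = t at *
    rw [abs_le] at h IH
    push_cast at h
    rcases he1 with rfl | rfl <;> rcases he2 with rfl | rfl <;> rcases he3 with rfl | rfl <;>
      rcases he4 with rfl | rfl <;> simp only [Nat.cast_zero, Nat.cast_one] at h <;>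
      first
        | (exfalso; omega)
        | (obtain ⟨h1, h2⟩ := IH (by constructor <;> omega); constructor <;> omega)

/-- The set described in the problem (with rounding up). -/
def G : Set ℕ := Blocks (SubsetSums aCeil)

theorem mem_G {n : ℕ} : n ∈ G ↔ ∃ i, ∃ x ∈ lev i, ∃ y ≤ 4, n = 5 * x + y := by
  constructor
  · rintro ⟨x, hx, y, hy, rfl⟩
    obtain ⟨i, hi⟩ := exists_lev.mp hx
    exact ⟨i, x, hi, y, hy, rfl⟩
  · rintro ⟨i, x, hx, y, hy, rfl⟩
    exact ⟨x, exists_lev.mpr ⟨i, hx⟩, y, hy, rfl⟩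

theorem G_free : Free G := by
  intro w hw x hx y hy z hz h
  obtain ⟨i1, w', hw', r1, hr1, rfl⟩ := mem_G.mp hw
  obtain ⟨i2, x', hx', r2, hr2, rfl⟩ := mem_G.mp hx
  obtain ⟨i3, y', hy', r3, hr3, rfl⟩ := mem_G.mp hy
  obtain ⟨i4, z', hz', r4, hr4, rfl⟩ := mem_G.mp hz
  have hr : r2 = r4 := by omega
  subst hr
  set m := i1 + i2 + i3 + i4 with hm
  obtain ⟨h1, h2⟩ := diff_aux m z' (lev_mono (by omega) hz') x' (lev_mono (by omega) hx')
    w' (lev_mono (by omega) hw') y' (lev_mono (by omega) hy')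
    (by rw [abs_le]; constructor <;> omega)
  omega

/-! ### Blocked integers -/

theorem cover (i : ℕ) : ∀ t : ℤ, -5 * (s i : ℤ) - 4 ≤ t → t ≤ 7 * (s i : ℤ) + 4 →
    ∃ x ∈ lev i, ∃ y ∈ lev i, ∃ z ∈ lev i, ∃ v : ℤ, -4 ≤ v ∧ v ≤ 4 ∧
      t = 2 * x + 5 * ((y : ℤ) - z) + v := by
  induction i with
  | zero =>
    intro t h1 h2
    rw [s_zero] at h1 h2
    exact ⟨0, rfl, 0, rfl, 0, rfl, t, by simpa using h1, by simpa using h2, by simp⟩
  | succ i ih =>
    intro t h1 h2
    have hl := two_a_lower i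
    have hu := two_a_upper i
    rw [s_succ] at h1 h2
    push_cast at h1 h2
    by_cases c1 : t ≤ -5 * (aCeil (i + 1) : ℤ) + 7 * s i + 4
    · obtain ⟨x, hx, y, hy, z, hz, v, hv1, hv2, h⟩ := ih (t + 5 * aCeil (i + 1))
        (by omega) (by omega)
      exact ⟨x, lev_sub hx, y, lev_sub hy, z + aCeil (i + 1), lev_add hz, v, hv1, hv2,
        by push_cast; linarith⟩
    by_cases c2 : t ≤ -3 * (aCeil (i + 1) : ℤ) + 7 * s i + 4
    · obtain ⟨x, hx, y, hy, z, hz, v, hv1, hv2, h⟩ := ih (t + 3 * aCeil (i + 1))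
        (by omega) (by omega)
      exact ⟨x + aCeil (i + 1), lev_add hx, y, lev_sub hy, z + aCeil (i + 1), lev_add hz, v,
        hv1, hv2, by push_cast; linarith⟩
    by_cases c3 : t ≤ 7 * (s i : ℤ) + 4
    · obtain ⟨x, hx, y, hy, z, hz, v, hv1, hv2, h⟩ := ih t (by omega) (by omega)
      exact ⟨x, lev_sub hx, y, lev_sub hy, z, lev_sub hz, v, hv1, hv2, h⟩
    by_cases c4 : t ≤ 2 * (aCeil (i + 1) : ℤ) + 7 * s i + 4
    · obtain ⟨x, hx, y, hy, z, hz, v, hv1, hv2, h⟩ := ih (t - 2 * aCeil (i + 1))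
        (by omega) (by omega)
      exact ⟨x + aCeil (i + 1), lev_add hx, y, lev_sub hy, z, lev_sub hz, v,
        hv1, hv2, by push_cast; linarith⟩
    by_cases c5 : t ≤ 5 * (aCeil (i + 1) : ℤ) + 7 * s i + 4
    · obtain ⟨x, hx, y, hy, z, hz, v, hv1, hv2, h⟩ := ih (t - 5 * aCeil (i + 1))
        (by omega) (by omega)
      exact ⟨x, lev_sub hx, y + aCeil (i + 1), lev_add hy, z, lev_sub hz, v,
        hv1, hv2, by push_cast; linarith⟩
    · obtain ⟨x, hx, y, hy, z, hz, v, hv1, hv2, h⟩ := ih (t - 7 * aCeil (i + 1))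
        (by omega) (by omega)
      exact ⟨x + aCeil (i + 1), lev_add hx, y + aCeil (i + 1), lev_add hy, z, lev_sub hz, v,
        hv1, hv2, by push_cast; linarith⟩

/-- `n` is blocked by elements of `G` below `n`. -/
def Blocked (n : ℕ) : Prop :=
  ∃ k, 1 ≤ k ∧ ∃ t ∈ G, n = t + 5 * k ∧ ∃ p ∈ G, ∃ q ∈ G, p = q + 2 * k ∧ p < n

theorem gap (i n : ℕ) (h1 : 5 * s i + 4 < n) (h2 : n < 5 * aCeil (i + 1)) : Blocked n := by
  obtain ⟨c, r, hr, rfl⟩ : ∃ c r, r ≤ 4 ∧ n = 5 * c + r :=
    ⟨n / 5, n % 5, by omega, by omega⟩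
  have hu := two_a_upper i
  obtain ⟨x, hx, y, hy, z, hz, v, hv1, hv2, h⟩ := cover i (2 * (c : ℤ)) (by omega) (by omega)
  have lx := lev_le hx
  have ly := lev_le hy
  have lz := lev_le hz
  obtain ⟨v1, v2, hv1', hv2', hv⟩ : ∃ v1 v2 : ℕ, v1 ≤ 4 ∧ v2 ≤ 4 ∧ (v1 : ℤ) - v2 = v := by
    rcases le_or_gt 0 v with h0 | h0
    · exact ⟨v.toNat, 0, by omega, by omega, by omega⟩
    · exact ⟨0, (-v).toNat, by omega, by omega, by omega⟩
  refine ⟨c - x, by omega, 5 * x + r, mem_G.mpr ⟨i, x, hx, r, hr, rfl⟩, by omega,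
    5 * y + v1, mem_G.mpr ⟨i, y, hy, v1, hv1', rfl⟩,
    5 * z + v2, mem_G.mpr ⟨i, z, hz, v2, hv2', rfl⟩, by omega, by omega⟩

theorem mem_or_blocked (i : ℕ) : ∀ n, n < 5 * aCeil (i + 1) → n ∈ G ∨ Blocked n := by
  induction i with
  | zero =>
    intro n hn
    by_cases h : n ≤ 4
    · exact Or.inl (mem_G.mpr ⟨0, 0, rfl, n, h, by omega⟩)
    · exact Or.inr (gap 0 n (by rw [s_zero]; omega) hn)
  | succ i ih =>
    intro n hn
    have hl := two_a_lower i
    by_cases c1 : n < 5 * aCeil (i + 1)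
    · exact ih n c1
    by_cases c2 : n ≤ 5 * s (i + 1) + 4
    · rw [s_succ] at c2
      obtain ⟨h, rfl⟩ : ∃ h, n = 5 * aCeil (i + 1) + h := ⟨n - 5 * aCeil (i + 1), by omega⟩
      -- shift of an element of `G` below `5 a`
      have shift : ∀ t ∈ G, t < 5 * aCeil (i + 1) → 5 * aCeil (i + 1) + t ∈ G := by
        intro t ht htl
        obtain ⟨j, x, hx, y, hy, rfl⟩ := mem_G.mp ht
        have hx' : x ∈ lev i := mem_lev_of_lt hx (by omega)
        exact mem_G.mpr ⟨i + 1, x + aCeil (i + 1), lev_add hx', y, hy, by ring⟩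
      rcases ih h (by omega) with hG | ⟨k, hk, t, ht, he, p, hp, q, hq, hpq, hlt⟩
      · exact Or.inl (shift h hG (by omega))
      · exact Or.inr ⟨k, hk, 5 * aCeil (i + 1) + t, shift t ht (by omega), by omega,
          p, hp, q, hq, hpq, by omega⟩
    · exact Or.inr (gap (i + 1) n (by omega) hn)

theorem blocked_of_not_mem {n : ℕ} (h : n ∉ G) : Blocked n := by
  have h1 : n < 5 * aCeil (n + 1) := by
    have := two_a_lower n
    have := i_le_s n
    omega
  rcases mem_or_blocked n n h1 with h2 | h2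
  · exact absurd h2 h
  · exact h2

/-! ### The greedy sequence -/

theorem G_infinite : G.Infinite := by
  rw [Set.infinite_iff_exists_gt]
  intro n
  refine ⟨5 * aCeil (n + 1), mem_G.mpr ⟨n + 1, aCeil (n + 1), ?_, 0, by omega, by omega⟩, ?_⟩
  · have := lev_add (zero_mem_lev n)
    simpa using this
  · have := two_a_lower n
    have := i_le_s n
    omega

theorem zero_mem_G : 0 ∈ G := mem_G.mpr ⟨0, 0, rfl, 0, by omega, by omega⟩

theorem nth_zero : Nat.nth (· ∈ G) 0 = 0 := by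
  rw [Nat.nth_zero]
  exact Nat.sInf_eq_zero.mpr (Or.inl zero_mem_G)

theorem image_nth (i : ℕ) :
    (Nat.nth (· ∈ G)) '' Set.Iic i = {m | m ∈ G ∧ m ≤ Nat.nth (· ∈ G) i} := by
  have hinf : {n | n ∈ G}.Infinite := G_infinite
  ext m
  constructor
  · rintro ⟨j, hj, rfl⟩
    exact ⟨Nat.nth_mem_of_infinite hinf j, (Nat.nth_le_nth hinf).mpr hj⟩
  · rintro ⟨hm, hle⟩
    have : m ∈ Set.range (Nat.nth (· ∈ G)) := by
      rw [Nat.range_nth_of_infinite hinf]; exact hm
    obtain ⟨j, rfl⟩ := this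
    exact ⟨j, (Nat.nth_le_nth hinf).mp hle, rfl⟩

theorem isGreedy_nth : IsGreedy (Nat.nth (· ∈ G)) := by
  have hinf : {n | n ∈ G}.Infinite := G_infinite
  refine ⟨nth_zero, fun i => ⟨⟨?_, ?_⟩, ?_⟩⟩
  · exact (Nat.nth_lt_nth hinf).mpr (Nat.lt_succ_self i)
  · rw [image_nth]
    have hsub : insert (Nat.nth (· ∈ G) (i + 1)) {m | m ∈ G ∧ m ≤ Nat.nth (· ∈ G) i} ⊆ G := by
      rintro m (rfl | hm)
      · exact Nat.nth_mem_of_infinite hinf _
      · exact hm.1
    intro w hw x hx y hy z hz h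
    exact G_free w (hsub hw) x (hsub hx) y (hsub hy) z (hsub hz) h
  · rintro n ⟨hn, hfree⟩
    by_contra hlt
    push Not at hlt
    rw [image_nth] at hfree
    -- `n` is not in `G`
    have hnG : n ∉ G := by
      intro hG
      have : n ∈ Set.range (Nat.nth (· ∈ G)) := by
        rw [Nat.range_nth_of_infinite hinf]; exact hG
      obtain ⟨j, rfl⟩ := this
      have h1 := (Nat.nth_lt_nth hinf).mp hn
      have h2 := (Nat.nth_lt_nth hinf).mp hlt
      omega
    -- elements of `G` below `n` are at most `nth i`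
    have hbelow : ∀ m ∈ G, m < n → m ≤ Nat.nth (· ∈ G) i := by
      intro m hm hmn
      have : m ∈ Set.range (Nat.nth (· ∈ G)) := by
        rw [Nat.range_nth_of_infinite hinf]; exact hm
      obtain ⟨j, rfl⟩ := this
      apply (Nat.nth_le_nth hinf).mpr
      have h2 := (Nat.nth_lt_nth hinf).mp (hmn.trans hlt)
      omega
    obtain ⟨k, hk, t, ht, he, p, hp, q, hq, hpq, hpn⟩ := blocked_of_not_mem hnG
    have key := hfree p (Or.inr ⟨hp, hbelow p hp hpn⟩) t (Or.inr ⟨ht, hbelow t ht (by omega)⟩)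
      q (Or.inr ⟨hq, hbelow q hq (by omega)⟩) n (Or.inl rfl) (by omega)
    omega

theorem isGreedy_unique {g g' : ℕ → ℕ} (hg : IsGreedy g) (hg' : IsGreedy g') : g = g' := by
  have key : ∀ i, ∀ j ≤ i, g j = g' j := by
    intro i
    induction i with
    | zero =>
      intro j hj
      rw [show j = 0 by omega, hg.1, hg'.1]
    | succ i ih =>
      intro j hj
      rcases Nat.lt_or_ge j (i + 1) with h | h
      · exact ih j (by omega)
      · have hj' : j = i + 1 := by omega
        subst hj'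
        have him : g '' Set.Iic i = g' '' Set.Iic i := by
          apply Set.image_congr
          intro a ha
          exact ih a ha
        have h1 := hg.2 i
        have h2 := hg'.2 i
        rw [him, ih i le_rfl] at h1
        exact h1.unique h2
  funext i
  exact key i i le_rfl

theorem aFloor_one : aFloor 1 = 2 := by
  rw [aFloor, if_neg one_ne_zero]
  have h : ∑ j : Fin 1, aFloor j = 0 := by
    rw [Fin.sum_univ_one]
    rw [aFloor]
    simp
  rw [h]
  rw [Nat.floor_eq_iff (by positivity)]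
  norm_num

/-- **The greedy set avoiding `5w + 2x = 5y + 2z`.**  There is exactly one greedy sequence `g`; its
set of terms is `{5x + y : x ∈ A, 0 ≤ y ≤ 4}` where `A` is the set of finite sums of distinct terms
of `a_0 = 0`, `a_i = ⌈(5 + 7 ∑_{j<i} a_j) / 2⌉`.  If the sequence is rounded down instead, as the
problem file writes, the description is false: `10` lies in the block set but is not greedy. -/
theorem result :
    ∃ g : ℕ → ℕ, IsGreedy g ∧ (∀ g', IsGreedy g' → g' = g) ∧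
      Set.range g = Blocks (SubsetSums aCeil) ∧
      10 ∈ Blocks (SubsetSums aFloor) ∧ 10 ∉ Set.range g := by
  have hinf : {n | n ∈ G}.Infinite := G_infinite
  refine ⟨Nat.nth (· ∈ G), isGreedy_nth, fun g' hg' => isGreedy_unique hg' isGreedy_nth,
    Nat.range_nth_of_infinite hinf, ?_, ?_⟩
  · exact ⟨2, ⟨{1}, by rw [Finset.sum_singleton, aFloor_one]⟩, 0, by omega, by omega⟩
  · rw [Nat.range_nth_of_infinite hinf]
    intro h
    have h0 : ∀ r ≤ 4, r ∈ G := fun r hr => mem_G.mpr ⟨0, 0, rfl, r, hr, by omega⟩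
    have := G_free 4 (h0 4 le_rfl) 0 (h0 0 (by omega)) 0 (h0 0 (by omega)) 10 h (by norm_num)
    omega

end Pool.Agent.Results.MP_cb51c9_co.GreedyBlocks
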